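import Mathlib

/-!
# The cofactor of the sum of two p-th powers
-/

set_option autoImplicit false

namespace Pool.Agent.Y546.SG

open Finset

variable {R S : Type*} [CommRing R] [CommRing S]

/-- the cofactor `(y ^ p + z ^ p) / (y + z)` as a polynomial -/
def phi (p : ℕ) (y z : R) : R := ∑ i ∈ range p, y ^ i * (-z) ^ (p - 1 - i)

theorem phi_mul {p : ℕ} (hp : Odd p) (y z : R) : (y + z) * phi p y z = y ^ p + z ^ p := by
  have h := Commute.geom_sum₂_mul (Commute.all y (-z)) p
  rw [hp.neg_pow, sub_neg_eq_add, sub_neg_eq_add] at h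
  rw [mul_comm]
  exact h

theorem phi_neg (p : ℕ) (y : R) : phi p y (-y) = p * y ^ (p - 1) := by
  unfold phi
  rw [neg_neg]
  have : ∀ i ∈ range p, y ^ i * y ^ (p - 1 - i) = y ^ (p - 1) := by
    intro i hi
    rw [mem_range] at hi
    rw [← pow_add]
    congr 1
    omega
  rw [sum_congr rfl this, sum_const, card_range, nsmul_eq_mul]

theorem phi_comm {p : ℕ} (hp : Odd p) (y z : R) : phi p y z = phi p z y := by
  unfold phi
  obtain ⟨k, rfl⟩ := hp
  rw [← Finset.sum_range_reflect]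
  refine sum_congr rfl fun i hi => ?_
  rw [mem_range] at hi
  have h1 : 2 * k + 1 - 1 - (2 * k + 1 - 1 - i) = i := by omega
  rw [h1, neg_pow z, neg_pow y]
  have h2 : (-1 : R) ^ (2 * k + 1 - 1 - i) = (-1) ^ i := by
    have h3 : 2 * k + 1 - 1 - i + i = 2 * k := by omega
    have h4 : (-1 : R) ^ (2 * k + 1 - 1 - i) * (-1) ^ i = 1 := by
      rw [← pow_add, h3, pow_mul]
      norm_num
    have h5 : (-1 : R) ^ i * (-1) ^ i = 1 := by
      rw [← mul_pow]
      norm_num
    calc (-1 : R) ^ (2 * k + 1 - 1 - i)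
        = (-1 : R) ^ (2 * k + 1 - 1 - i) * ((-1) ^ i * (-1) ^ i) := by rw [h5, mul_one]
      _ = ((-1 : R) ^ (2 * k + 1 - 1 - i) * (-1) ^ i) * (-1) ^ i := by ring
      _ = (-1) ^ i := by rw [h4, one_mul]
  rw [h2]
  ring

theorem phi_zero_left {p : ℕ} (hp : Odd p) (z : R) : phi p 0 z = z ^ (p - 1) := by
  unfold phi
  obtain ⟨k, rfl⟩ := hp
  rw [sum_range_succ']
  simp

theorem phi_map (f : R →+* S) (p : ℕ) (y z : R) : f (phi p y z) = phi p (f y) (f z) := by
  unfold phi
  rw [map_sum]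
  simp

end Pool.Agent.Y546.SG
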