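import Pool.Agent.Y546.SG.Loc

/-!
# Verification of the conditions for small exponents
-/

set_option autoImplicit false

namespace Pool.Agent.Y546.SG

variable {q : ℕ} [Fact q.Prime]

theorem pw_pow {p k : ℕ} (hp : p ≠ 0) (hq : q = p * k + 1) {a : ZMod q} (h : IsPw p a) :
    a ^ (k + 1) = a := by
  obtain ⟨t, rfl⟩ := h
  by_cases h0 : t = 0
  · rw [h0, zero_pow hp, zero_pow (Nat.succ_ne_zero k)]
  · have h1 := ZMod.pow_card_sub_one_eq_one h0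
    have h2 : q - 1 = p * k := by omega
    rw [h2, pow_mul] at h1
    rw [pow_succ, h1, one_mul]

theorem germ1_of_check {p k : ℕ} (hp : p ≠ 0) (hq : q = p * k + 1)
    (h : ∀ s : ZMod q, s ^ (k + 1) = s → ∀ t : ZMod q, t ^ (k + 1) = t →
      (-s - t) ^ (k + 1) = -s - t → s = 0 ∨ t = 0 ∨ -s - t = 0) : Germ1 (ZMod q) p := by
  intro a b c habc
  have e : c ^ p = -a ^ p - b ^ p := by linear_combination habc
  have h1 := h (a ^ p) (pw_pow hp hq ⟨a, rfl⟩) (b ^ p) (pw_pow hp hq ⟨b, rfl⟩)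
    (by rw [← e]; exact pw_pow hp hq ⟨c, rfl⟩)
  rw [← e] at h1
  rcases h1 with h1 | h1 | h1
  · exact Or.inl ((pow_eq_zero_iff hp).1 h1)
  · exact Or.inr (Or.inl ((pow_eq_zero_iff hp).1 h1))
  · exact Or.inr (Or.inr ((pow_eq_zero_iff hp).1 h1))

theorem div_check {k : ℕ} {a b : ZMod q} (hb : b ≠ 0) (h : (a / b) ^ (k + 1) = a / b) :
    a ^ (k + 1) = a * b ^ k := by
  rw [div_pow, div_eq_div_iff (pow_ne_zero _ hb) hb] at h
  apply mul_right_cancel₀ hb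
  rw [h]
  ring

theorem apart_of_check {p k : ℕ} (hp : p ≠ 0) (hq : q = p * k + 1)
    (h : ∀ u : ZMod q, u ^ p = 1 → ∀ v : ZMod q, v ^ p = 1 → (u ≠ 1 ∨ v ≠ 1) →
      ¬ ((u * v) ^ (k + 1) = u * v ∧ ((1 - u) * (1 - v)) ^ (k + 1) = (1 - u) * (1 - v)) ∧
      ¬ ((1 - u) ^ (k + 1) = (1 - u) * (u * v) ^ k ∧ (1 - v) ^ (k + 1) = (1 - v) * (u * v) ^ k ∧
        (u = 1 → ((p : ZMod q) * (1 - v)) ^ (k + 1) = (p : ZMod q) * (1 - v)) ∧
        (v = 1 → ((p : ZMod q) * (1 - u)) ^ (k + 1) = (p : ZMod q) * (1 - u)))) :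
    Apart (ZMod q) p := by
  intro u v hu hv huv
  have hu0 : u ≠ 0 := by
    rintro rfl
    rw [zero_pow hp] at hu
    exact one_ne_zero hu.symm
  have hv0 : v ≠ 0 := by
    rintro rfl
    rw [zero_pow hp] at hv
    exact one_ne_zero hv.symm
  obtain ⟨h1, h2⟩ := h u hu v hv huv
  refine ⟨fun h3 => h1 ⟨pw_pow hp hq h3.1, pw_pow hp hq h3.2⟩, ?_⟩
  rintro ⟨h3, h4, h5, h6⟩
  exact h2 ⟨div_check (mul_ne_zero hu0 hv0) (pw_pow hp hq h3),
    div_check (mul_ne_zero hu0 hv0) (pw_pow hp hq h4),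
    fun h7 => pw_pow hp hq (h5 h7), fun h7 => pw_pow hp hq (h6 h7)⟩

theorem not_pw_of_check {p k : ℕ} (hp : p ≠ 0) (hq : q = p * k + 1)
    (h : (p : ZMod q) ^ (k + 1) ≠ (p : ZMod q)) : ¬ IsPw p (p : ZMod q) :=
  fun h1 => h (pw_pow hp hq h1)

end Pool.Agent.Y546.SG
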