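import Pool.Agent.Y546.SG.Loc

/-!
# The conditions for q = 2 p + 1
-/

set_option autoImplicit false

namespace Pool.Agent.Y546.SG

section General

variable {F : Type*} [Field F] {p : ℕ}

theorem germ1_gen (h1 : (1 : F) ≠ 0) (h3 : (3 : F) ≠ 0)
    (hpw : ∀ a : F, IsPw p a → a = 0 ∨ a = 1 ∨ a = -1) : Germ1 F p := by
  intro a b c h
  by_contra hcon
  push Not at hcon
  obtain ⟨ha, hb, hc⟩ := hcon
  have ha' := (hpw _ ⟨a, rfl⟩).resolve_left (pow_ne_zero p ha)
  have hb' := (hpw _ ⟨b, rfl⟩).resolve_left (pow_ne_zero p hb)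
  have hc' := (hpw _ ⟨c, rfl⟩).resolve_left (pow_ne_zero p hc)
  rcases ha' with h4 | h4 <;> rcases hb' with h6 | h6 <;> rcases hc' with h7 | h7 <;>
    rw [h4, h6, h7] at h
  · exact h3 (by linear_combination h)
  · exact h1 (by linear_combination h)
  · exact h1 (by linear_combination h)
  · exact h1 (by linear_combination -h)
  · exact h1 (by linear_combination h)
  · exact h1 (by linear_combination -h)
  · exact h1 (by linear_combination -h)
  · exact h3 (by linear_combination -h)

theorem not_pw_gen (h1 : (1 : F) ≠ 0) (h3 : (3 : F) ≠ 0) (h2p : (2 : F) * p = -1)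
    (hpw : ∀ a : F, IsPw p a → a = 0 ∨ a = 1 ∨ a = -1) : ¬ IsPw p (p : F) := by
  intro h
  rcases hpw _ h with h4 | h4 | h4 <;> rw [h4] at h2p
  · exact h1 (by linear_combination h2p)
  · exact h3 (by linear_combination h2p)
  · exact h1 (by linear_combination -h2p)

theorem apart_gen (hodd : Odd p) (h1 : (1 : F) ≠ 0) (h2 : (2 : F) ≠ 0) (h3 : (3 : F) ≠ 0)
    (h5 : (5 : F) ≠ 0) (h2p : (2 : F) * p = -1)
    (hpw : ∀ a : F, IsPw p a → a = 0 ∨ a = 1 ∨ a = -1) (hsq : ¬ IsSquare (5 : F)) :
    Apart F p := by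
  have hp0 : p ≠ 0 := hodd.pos.ne'
  -- no sixth roots of unity
  have six : ∀ u : F, u ^ p = 1 → u ^ 2 - u + 1 ≠ 0 := by
    intro u hu h6
    have h7 : u ^ 3 = -1 := by linear_combination (u + 1) * h6
    have h8 : (u ^ 3) ^ p = (u ^ p) ^ 3 := by rw [← pow_mul, ← pow_mul, mul_comm]
    rw [h7, hodd.neg_one_pow, hu, one_pow] at h8
    exact h2 (by linear_combination -h8)
  -- no golden ratio
  have five : ∀ w : F, w ^ 2 ≠ 5 := by
    intro w hw
    exact hsq ⟨w, by rw [← hw, sq]⟩
  -- the case of one root equal to one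
  have one_case : ∀ v : F, v ≠ 1 → (1 - v = v ∨ 1 - v = -v) →
      ¬ IsPw p ((p : F) * (1 - v)) := by
    intro v hv hvv hpp
    rcases hvv with hvv | hvv
    · rcases hpw _ hpp with h9 | h9 | h9
      · exact h1 (by linear_combination 2 * (1 - v) * h2p - 4 * h9 - hvv)
      · exact h5 (by linear_combination 2 * (1 - v) * h2p - 4 * h9 - hvv)
      · exact h3 (by linear_combination -2 * (1 - v) * h2p + 4 * h9 + hvv)
    · exact h1 (by linear_combination hvv)
  have neg_one : (1 : F) ≠ -1 := fun h9 => h2 (by linear_combination h9)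
  intro u v hu hv huv
  have hu0 : u ≠ 0 := by
    rintro rfl
    rw [zero_pow hp0] at hu
    exact h1 hu.symm
  have hv0 : v ≠ 0 := by
    rintro rfl
    rw [zero_pow hp0] at hv
    exact h1 hv.symm
  have huv0 : u * v ≠ 0 := mul_ne_zero hu0 hv0
  refine ⟨?_, ?_⟩
  · rintro ⟨h6, h7⟩
    have huvp : (u * v) ^ p = 1 := by rw [mul_pow, hu, hv, one_mul]
    have h8 : u * v = 1 := by
      rcases hpw _ h6 with h9 | h9 | h9
      · exact absurd h9 huv0
      · exact h9
      · rw [h9, hodd.neg_one_pow] at huvp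
        exact absurd huvp.symm neg_one
    have hu1 : u ≠ 1 := by
      rintro rfl
      rw [one_mul] at h8
      rcases huv with h9 | h9
      · exact h9 rfl
      · exact h9 h8
    have hv1 : v ≠ 1 := by
      rintro rfl
      rw [mul_one] at h8
      exact hu1 h8
    rcases hpw _ h7 with h9 | h9 | h9
    · rcases mul_eq_zero.1 h9 with h10 | h10
      · exact hu1 (sub_eq_zero.1 h10).symm
      · exact hv1 (sub_eq_zero.1 h10).symm
    · exact six u hu (by linear_combination -(1 - u) * h8 - u * h9)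
    · apply five (2 * u - 3)
      linear_combination -4 * (1 - u) * h8 - 4 * u * h9
  · rintro ⟨h6, h7, h8, h9⟩
    have hA : 1 - u = 0 ∨ 1 - u = u * v ∨ 1 - u = -(u * v) := by
      rcases hpw _ h6 with h10 | h10 | h10
      · left
        rw [div_eq_zero_iff] at h10
        exact h10.resolve_right huv0
      · right
        left
        rwa [div_eq_one_iff_eq huv0] at h10
      · right
        right
        rw [div_eq_iff huv0] at h10
        rw [h10]
        ring
    have hB : 1 - v = 0 ∨ 1 - v = u * v ∨ 1 - v = -(u * v) := by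
      rcases hpw _ h7 with h10 | h10 | h10
      · left
        rw [div_eq_zero_iff] at h10
        exact h10.resolve_right huv0
      · right
        left
        rwa [div_eq_one_iff_eq huv0] at h10
      · right
        right
        rw [div_eq_iff huv0] at h10
        rw [h10]
        ring
    by_cases hu1 : u = 1
    · have hv1 : v ≠ 1 := by tauto
      apply one_case v hv1 _ (h8 hu1)
      rw [hu1, one_mul] at hB
      rcases hB with h10 | h10 | h10
      · exact absurd (sub_eq_zero.1 h10).symm hv1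
      · exact Or.inl h10
      · exact Or.inr h10
    · by_cases hv1 : v = 1
      · apply one_case u hu1 _ (h9 hv1)
        rw [hv1, mul_one] at hA
        rcases hA with h10 | h10 | h10
        · exact absurd (sub_eq_zero.1 h10).symm hu1
        · exact Or.inl h10
        · exact Or.inr h10
      · rcases hA with h10 | h10 | h10
        · exact hu1 (sub_eq_zero.1 h10).symm
        · rcases hB with h11 | h11 | h11
          · exact hv1 (sub_eq_zero.1 h11).symm
          · have e : u = v := by linear_combination h11 - h10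
            apply five (2 * u + 1)
            rw [← e] at h10
            linear_combination -4 * h10
          · have e : v = 2 - u := by linear_combination -h10 - h11
            apply five (2 * u - 3)
            rw [e] at h10
            linear_combination 4 * h10
        · rcases hB with h11 | h11 | h11
          · exact hv1 (sub_eq_zero.1 h11).symm
          · have e : u = 2 - v := by linear_combination -h10 - h11
            apply five (2 * v - 3)
            rw [e] at h11
            linear_combination 4 * h11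
          · have e : u = v := by linear_combination h11 - h10
            rw [← e] at h10
            exact six u hu (by linear_combination h10)

end General

section Two

variable {p : ℕ} [Fact (2 * p + 1).Prime]

theorem two_mul_p : (2 : ZMod (2 * p + 1)) * p = -1 := by
  have h : ((2 * p + 1 : ℕ) : ZMod (2 * p + 1)) = 0 := ZMod.natCast_self _
  rw [eq_neg_iff_add_eq_zero]
  exact_mod_cast h

theorem small_ne {n : ℕ} (h0 : 0 < n) (h : n < 2 * p + 1) : ((n : ℕ) : ZMod (2 * p + 1)) ≠ 0 := by
  rw [Ne, ZMod.natCast_eq_zero_iff]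
  exact Nat.not_dvd_of_pos_of_lt h0 h

theorem pw_two (hp : p ≠ 0) (a : ZMod (2 * p + 1)) (h : IsPw p a) :
    a = 0 ∨ a = 1 ∨ a = -1 := by
  obtain ⟨t, rfl⟩ := h
  by_cases h0 : t = 0
  · left
    rw [h0, zero_pow hp]
  · right
    have h1 := ZMod.pow_card_sub_one_eq_one h0
    have h2 : 2 * p + 1 - 1 = p * 2 := by omega
    rw [h2, pow_mul] at h1
    rw [← one_pow (M := ZMod (2 * p + 1)) 2] at h1
    exact sq_eq_sq_iff_eq_or_eq_neg.1 h1

theorem not_sq_five (h : (2 * p + 1) % 5 = 2 ∨ (2 * p + 1) % 5 = 3) :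
    ¬ IsSquare (5 : ZMod (2 * p + 1)) := by
  have h4 : ¬ ∃ r : ZMod 5, ((2 : ℕ) : ZMod 5) = r * r := by decide
  have h5 : ¬ ∃ r : ZMod 5, ((3 : ℕ) : ZMod 5) = r * r := by decide
  have : Fact (Nat.Prime 5) := ⟨by norm_num⟩
  intro h1
  have h2 : IsSquare ((5 : ℕ) : ZMod (2 * p + 1)) := by exact_mod_cast h1
  rw [← ZMod.exists_sq_eq_prime_iff_of_mod_four_eq_one (p := 5) (q := 2 * p + 1) (by norm_num)
    (by omega)] at h2
  have h3 : ((2 * p + 1 : ℕ) : ZMod 5) = (((2 * p + 1) % 5 : ℕ) : ZMod 5) := by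
    rw [ZMod.natCast_mod]
  rw [h3] at h2
  rcases h with h | h <;> rw [h] at h2
  · exact h4 h2
  · exact h5 h2

theorem two_facts (h5 : 5 ≤ p) : (1 : ZMod (2 * p + 1)) ≠ 0 ∧ (2 : ZMod (2 * p + 1)) ≠ 0 ∧
    (3 : ZMod (2 * p + 1)) ≠ 0 ∧ (5 : ZMod (2 * p + 1)) ≠ 0 := by
  have h1 : ((1 : ℕ) : ZMod (2 * p + 1)) ≠ 0 := small_ne (by omega) (by omega)
  have h2 : ((2 : ℕ) : ZMod (2 * p + 1)) ≠ 0 := small_ne (by omega) (by omega)
  have h3 : ((3 : ℕ) : ZMod (2 * p + 1)) ≠ 0 := small_ne (by omega) (by omega)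
  have h5' : ((5 : ℕ) : ZMod (2 * p + 1)) ≠ 0 := small_ne (by omega) (by omega)
  exact ⟨by exact_mod_cast h1, by exact_mod_cast h2, by exact_mod_cast h3, by exact_mod_cast h5'⟩

theorem germ1_two (h5 : 5 ≤ p) : Germ1 (ZMod (2 * p + 1)) p :=
  germ1_gen (two_facts h5).1 (two_facts h5).2.2.1 (pw_two (by omega))

theorem not_pw_two (h5 : 5 ≤ p) : ¬ IsPw p (p : ZMod (2 * p + 1)) :=
  not_pw_gen (two_facts h5).1 (two_facts h5).2.2.1 two_mul_p (pw_two (by omega))

theorem apart_two (hodd : Odd p) (h5 : 5 ≤ p)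
    (h : (2 * p + 1) % 5 = 2 ∨ (2 * p + 1) % 5 = 3) : Apart (ZMod (2 * p + 1)) p :=
  apart_gen hodd (two_facts h5).1 (two_facts h5).2.1 (two_facts h5).2.2.1 (two_facts h5).2.2.2
    two_mul_p (pw_two (by omega)) (not_sq_five h)

end Two

end Pool.Agent.Y546.SG
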