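import Pool.Agent.Y546.SG.Alg

/-!
# The ideals of the factors of a sum of two p-th powers (first case)
-/

set_option autoImplicit false

namespace Pool.Agent.Y546.SG

open Finset

variable {R : Type*} [CommRing R]

theorem pow_sub_mem (G P : Ideal R) {a b : R} (ha : a ∈ G) (hb : b ∈ G) (hab : a - b ∈ P * G)
    (m : ℕ) : a ^ m - b ^ m ∈ P * G ^ m := by
  induction m with
  | zero => simp
  | succ m ih =>
    have e : a ^ (m + 1) - b ^ (m + 1) = a * (a ^ m - b ^ m) + (a - b) * b ^ m := by ring
    rw [e]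
    have h1 : a * (a ^ m - b ^ m) ∈ G * (P * G ^ m) := Ideal.mul_mem_mul ha ih
    have h2 : (a - b) * b ^ m ∈ P * G * G ^ m := Ideal.mul_mem_mul hab (Ideal.pow_mem_pow hb m)
    have e1 : G * (P * G ^ m) = P * G ^ (m + 1) := by ring
    have e2 : P * G * G ^ m = P * G ^ (m + 1) := by ring
    rw [e1] at h1
    rw [e2] at h2
    exact add_mem h1 h2

theorem phi_mem (G : Ideal R) {y z : R} (hy : y ∈ G) (hz : z ∈ G) (p : ℕ) :
    phi p y z ∈ G ^ (p - 1) := by
  unfold phi
  refine sum_mem fun i hi => ?_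
  rw [mem_range] at hi
  have h1 : y ^ i * (-z) ^ (p - 1 - i) ∈ G ^ i * G ^ (p - 1 - i) :=
    Ideal.mul_mem_mul (Ideal.pow_mem_pow hy i) (Ideal.pow_mem_pow (neg_mem hz) _)
  rw [← pow_add] at h1
  have e : i + (p - 1 - i) = p - 1 := by omega
  rwa [e] at h1

theorem phi_sub_mem (G P : Ideal R) {y z : R} (hy : y ∈ G) (hz : z ∈ G) (hyz : y + z ∈ P * G)
    (p : ℕ) : phi p y z - p * y ^ (p - 1) ∈ P * G ^ (p - 1) := by
  have e : phi p y z - p * y ^ (p - 1) =
      ∑ i ∈ range p, y ^ i * ((-z) ^ (p - 1 - i) - y ^ (p - 1 - i)) := by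
    have e1 : (p : R) * y ^ (p - 1) = ∑ i ∈ range p, y ^ i * y ^ (p - 1 - i) := by
      have := phi_neg p y
      unfold phi at this
      rw [neg_neg] at this
      exact this.symm
    rw [e1]
    unfold phi
    rw [← sum_sub_distrib]
    exact sum_congr rfl fun i _ => by ring
  rw [e]
  refine sum_mem fun i hi => ?_
  rw [mem_range] at hi
  have h0 : -z - y ∈ P * G := by
    have : -z - y = -(y + z) := by ring
    rw [this]
    exact neg_mem hyz
  have h1 : y ^ i * ((-z) ^ (p - 1 - i) - y ^ (p - 1 - i)) ∈ G ^ i * (P * G ^ (p - 1 - i)) :=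
    Ideal.mul_mem_mul (Ideal.pow_mem_pow hy i) (pow_sub_mem G P (neg_mem hz) hy h0 _)
  have e2 : G ^ i * (P * G ^ (p - 1 - i)) = P * G ^ (p - 1) := by
    have e3 : i + (p - 1 - i) = p - 1 := by omega
    calc G ^ i * (P * G ^ (p - 1 - i)) = P * (G ^ i * G ^ (p - 1 - i)) := by ring
      _ = P * G ^ (p - 1) := by rw [← pow_add, e3]
  rwa [e2] at h1

variable [IsDedekindDomain R]

open Ideal in
/-- in the first case the two factors are p-th powers of ideals, up to the common divisor -/
theorem ideal_pow {p : ℕ} (hp : Odd p) {x y z : R} (hx : x ≠ 0)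
    (h : x ^ p + y ^ p + z ^ p = 0) (G : Ideal R) (hG : G = span {x, y, z})
    (hcase : ∀ P : Ideal R, P.IsPrime → (p : R) ∈ P → x ∉ P * G) :
    (∃ a : Ideal R, span {y + z} = G * a ^ p) ∧
      ∃ b : Ideal R, span {phi p y z} = G ^ (p - 1) * b ^ p := by
  have hp0 : p ≠ 0 := hp.pos.ne'
  have hxG : x ∈ G := by rw [hG]; exact subset_span (by simp)
  have hyG : y ∈ G := by rw [hG]; exact subset_span (by simp)
  have hzG : z ∈ G := by rw [hG]; exact subset_span (by simp)
  have hG0 : G ≠ ⊥ := by
    rintro h0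
    rw [h0, mem_bot] at hxG
    exact hx hxG
  obtain ⟨I, hI⟩ := dvd_span_singleton.2 (add_mem hyG hzG)
  obtain ⟨J, hJ⟩ := dvd_span_singleton.2 (phi_mem G hyG hzG p)
  obtain ⟨X, hX⟩ := dvd_span_singleton.2 hxG
  obtain ⟨Y, hY⟩ := dvd_span_singleton.2 hyG
  have hX0 : X ≠ ⊥ := by
    rintro h0
    rw [h0, mul_bot, span_singleton_eq_bot] at hX
    exact hx hX
  have hmul : X ^ p = I * J := by
    have h1 : span {x} ^ p = span {y + z} * span {phi p y z} := by
      rw [span_singleton_pow, span_singleton_mul_span_singleton, phi_mul hp]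
      have : x ^ p = -(y ^ p + z ^ p) := by linear_combination h
      rw [this, span_singleton_neg]
    rw [hX, hI, hJ, mul_pow] at h1
    have h2 : G ^ p * X ^ p = G ^ p * (I * J) := by
      rw [h1]
      have e : G ^ p = G * G ^ (p - 1) := by
        rw [← pow_succ']
        congr 1
        omega
      rw [e]
      ring
    exact mul_left_cancel₀ (pow_ne_zero p hG0) h2
  have hcop : IsCoprime I J := by
    by_contra hcon
    rw [Ideal.isCoprime_iff_sup_eq] at hcon
    obtain ⟨P, hP, hle⟩ := exists_le_maximal _ hcon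
    have hPp : P.IsPrime := hP.isPrime
    have hPI : P ∣ I := dvd_iff_le.2 (le_sup_left.trans hle)
    have hPJ : P ∣ J := dvd_iff_le.2 (le_sup_right.trans hle)
    have hP0 : P ≠ ⊥ := by
      rintro rfl
      have h1 : X ^ p = ⊥ := by
        rw [hmul]
        have : I = ⊥ := zero_dvd_iff.1 hPI
        rw [this, bot_mul]
      exact hX0 (pow_eq_zero_iff hp0 |>.1 h1)
    have hPr : Prime P := prime_of_isPrime hP0 hPp
    have hPX : P ∣ X := by
      apply hPr.dvd_of_dvd_pow (n := p)
      rw [hmul]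
      exact hPI.mul_right J
    have hxP : x ∈ P * G := by
      rw [← dvd_span_singleton, hX, mul_comm P G]
      exact mul_dvd_mul_left G hPX
    have hyzP : y + z ∈ P * G := by
      rw [← dvd_span_singleton, hI, mul_comm P G]
      exact mul_dvd_mul_left G hPI
    have hphP : phi p y z ∈ P * G ^ (p - 1) := by
      rw [← dvd_span_singleton, hJ, mul_comm P]
      exact mul_dvd_mul_left _ hPJ
    have hyP : y ∉ P * G := by
      intro hy
      have hz : z ∈ P * G := by
        have : z = (y + z) - y := by ring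
        rw [this]
        exact sub_mem hyzP hy
      have hle : G ≤ P * G := by
        rw [hG, span_le, ← hG]
        intro t ht
        simp only [Set.mem_insert_iff, Set.mem_singleton_iff] at ht
        rcases ht with rfl | rfl | rfl
        · exact hxP
        · exact hy
        · exact hz
      have hdvd : P * G ∣ 1 * G := by rw [one_mul]; exact dvd_iff_le.2 hle
      have h1 : P ∣ 1 := (mul_dvd_mul_iff_right hG0).1 hdvd
      exact hPr.not_isUnit (isUnit_of_dvd_one h1)
    have hpy : (p : R) * y ^ (p - 1) ∈ P * G ^ (p - 1) := by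
      have h1 := phi_sub_mem G P hyG hzG hyzP p
      have h2 := sub_mem hphP h1
      rwa [sub_sub_cancel] at h2
    rw [← dvd_span_singleton, ← span_singleton_mul_span_singleton, ← span_singleton_pow, hY,
      mul_pow] at hpy
    have h3 : P * G ^ (p - 1) ∣ (span {(p : R)} * Y ^ (p - 1)) * G ^ (p - 1) := by
      have e : (span {(p : R)} * Y ^ (p - 1)) * G ^ (p - 1) =
        span {(p : R)} * (G ^ (p - 1) * Y ^ (p - 1)) := by ring
      rw [e]
      exact hpy
    have h4 : P ∣ span {(p : R)} * Y ^ (p - 1) :=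
      (mul_dvd_mul_iff_right (pow_ne_zero _ hG0)).1 h3
    rcases hPr.dvd_or_dvd h4 with h5 | h5
    · exact hcase P hPp (dvd_span_singleton.1 h5) hxP
    · apply hyP
      rw [← dvd_span_singleton, hY, mul_comm P G]
      exact mul_dvd_mul_left G (hPr.dvd_of_dvd_pow h5)
  refine ⟨?_, ?_⟩
  · obtain ⟨a, ha⟩ := exists_eq_pow_of_mul_eq_pow_of_coprime hcop hmul.symm
    exact ⟨a, by rw [hI, ha]⟩
  · obtain ⟨b, hb⟩ := exists_eq_pow_of_mul_eq_pow_of_coprime hcop.symm
      (by rw [mul_comm]; exact hmul.symm)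
    exact ⟨b, by rw [hJ, hb]⟩

open Ideal in
/-- equal valuations at the primes above p exclude a common prime of x and p -/
theorem case_of_val {x y z : R} (hx : x ≠ 0) (G : Ideal R) (hG : G = span {x, y, z})
    (P : Ideal R) (hP : P.IsPrime)
    (hv : ∀ n : ℕ, (x ∈ P ^ n ↔ y ∈ P ^ n) ∧ (y ∈ P ^ n ↔ z ∈ P ^ n)) :
    x ∉ P * G := by
  intro hxP
  have key : ∀ n : ℕ, x ∈ P ^ n := by
    intro n
    induction n with
    | zero => simp
    | succ n ih =>
      have hy := (hv n).1.1 ih
      have hz := (hv n).2.1 hy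
      have hle : G ≤ P ^ n := by
        rw [hG, span_le]
        intro t ht
        simp only [Set.mem_insert_iff, Set.mem_singleton_iff] at ht
        rcases ht with rfl | rfl | rfl
        · exact ih
        · exact hy
        · exact hz
      rw [pow_succ']
      exact Ideal.mul_mono_right hle hxP
  have h1 : x ∈ ⨅ n : ℕ, P ^ n := by
    rw [Ideal.mem_iInf]
    exact key
  rw [Ideal.iInf_pow_eq_bot_of_isDomain P hP.ne_top, mem_bot] at h1
  exact hx h1

end Pool.Agent.Y546.SG
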