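import Pool.Agent.Y546.SG.Alg

/-!
# Norm classes of a point of the Fermat curve over a residue field
-/

set_option autoImplicit false

namespace Pool.Agent.Y546.SG

variable {F : Type*} [Field F]

/-- `a` is a p-th power -/
def IsPw (p : ℕ) (a : F) : Prop := ∃ t : F, t ^ p = a

theorem IsPw.mul {p : ℕ} {a b : F} (ha : IsPw p a) (hb : IsPw p b) : IsPw p (a * b) := by
  obtain ⟨s, rfl⟩ := ha
  obtain ⟨t, rfl⟩ := hb
  exact ⟨s * t, mul_pow _ _ _⟩

theorem IsPw.div {p : ℕ} {a b : F} (ha : IsPw p a) (hb : IsPw p b) : IsPw p (a / b) := by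
  obtain ⟨s, rfl⟩ := ha
  obtain ⟨t, rfl⟩ := hb
  exact ⟨s / t, div_pow _ _ _⟩

theorem IsPw.neg {p : ℕ} (hp : Odd p) {a : F} (ha : IsPw p a) : IsPw p (-a) := by
  obtain ⟨s, rfl⟩ := ha
  exact ⟨-s, hp.neg_pow _⟩

theorem IsPw.pow {p : ℕ} {a : F} (ha : IsPw p a) (n : ℕ) : IsPw p (a ^ n) := by
  obtain ⟨s, rfl⟩ := ha
  exact ⟨s ^ n, by rw [← pow_mul, ← pow_mul, mul_comm]⟩

/-- if the square is a p-th power so is the element -/
theorem IsPw.of_sq {p : ℕ} (hp : Odd p) {a : F} (ha : IsPw p (a ^ 2)) : IsPw p a := by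
  by_cases h0 : a = 0
  · rw [h0]
    exact ⟨0, zero_pow hp.pos.ne'⟩
  obtain ⟨k, rfl⟩ := hp
  have h1 : IsPw (2 * k + 1) ((a ^ 2) ^ (k + 1) / a ^ (2 * k + 1)) :=
    (ha.pow (k + 1)).div ⟨a, rfl⟩
  have e : (a ^ 2) ^ (k + 1) / a ^ (2 * k + 1) = a := by
    rw [← pow_mul, div_eq_iff (pow_ne_zero _ h0)]
    ring
  rwa [e] at h1

/-- Sophie Germain's first condition -/
def Germ1 (F : Type*) [Field F] (p : ℕ) : Prop :=
  ∀ a b c : F, a ^ p + b ^ p + c ^ p = 0 → a = 0 ∨ b = 0 ∨ c = 0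

/-- the condition at split primes -/
def Apart (F : Type*) [Field F] (p : ℕ) : Prop :=
  ∀ u v : F, u ^ p = 1 → v ^ p = 1 → (u ≠ 1 ∨ v ≠ 1) →
    ¬ (IsPw p (u * v) ∧ IsPw p ((1 - u) * (1 - v))) ∧
    ¬ (IsPw p ((1 - u) / (u * v)) ∧ IsPw p ((1 - v) / (u * v)) ∧
      (u = 1 → IsPw p ((p : F) * (1 - v))) ∧ (v = 1 → IsPw p ((p : F) * (1 - u))))

/-- the classes of the norms of one factor and its cofactor -/
def Dat (p : ℕ) (g y z y' z' : F) : Prop :=
  IsPw p ((y + z) * (y' + z') / g) ∧ IsPw p (phi p y z * phi p y' z' / g ^ (p - 1))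

theorem Dat.swap {p : ℕ} (hp : Odd p) {g y z y' z' : F} (h : Dat p g y z y' z') :
    Dat p g z y z' y' := by
  obtain ⟨h1, h2⟩ := h
  refine ⟨?_, ?_⟩
  · rwa [add_comm z, add_comm z']
  · rwa [phi_comm hp z, phi_comm hp z']

theorem Dat.flip {p : ℕ} {g y z y' z' : F} (h : Dat p g y z y' z') :
    Dat p g y' z' y z := by
  obtain ⟨h1, h2⟩ := h
  exact ⟨by rwa [mul_comm (y' + z')], by rwa [mul_comm (phi p y' z')]⟩

theorem root_one {p : ℕ} (hp : Odd p) {y z : F} (hz : z ≠ 0) (h : y ^ p + z ^ p = 0) :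
    (-y / z) ^ p = 1 := by
  rw [div_pow, hp.neg_pow, div_eq_one_iff_eq (pow_ne_zero _ hz)]
  linear_combination -h

theorem cancel_pow {p : ℕ} (hp : Odd p) {a r w : F} (hr : r ≠ 0) (h1 : IsPw p (a * r ^ (p - 1)))
    (h2 : IsPw p (r * w)) : IsPw p (a * w) := by
  have h3 := (h1.mul h2).div ⟨r, rfl⟩
  have e : a * r ^ (p - 1) * (r * w) / r ^ p = a * w := by
    rw [div_eq_iff (pow_ne_zero _ hr)]
    have e1 : r ^ p = r ^ (p - 1) * r := by
      rw [← pow_succ]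
      congr 1
      have := hp.pos
      omega
    rw [e1]
    ring
  rwa [e] at h3

/-- the same variable vanishes at both places -/
theorem same {p : ℕ} (hp : Odd p) (hP : ¬ IsPw p (p : F)) {g y z y' z' : F} (hg : g ≠ 0)
    (hz : z ≠ 0) (hz' : z' ≠ 0) (h : y ^ p + z ^ p = 0) (h' : y' ^ p + z' ^ p = 0)
    (hA : Dat p g y z y' z') (hB : IsPw p (z * z' / g)) (hC : IsPw p (y * y' / g)) :
    ∃ u v : F, u = -y / z ∧ v = -y' / z' ∧ u ^ p = 1 ∧ v ^ p = 1 ∧ (u ≠ 1 ∨ v ≠ 1) ∧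
      IsPw p (u * v) ∧ IsPw p ((1 - u) * (1 - v)) := by
  refine ⟨-y / z, -y' / z', rfl, rfl, root_one hp hz h, root_one hp hz' h', ?_, ?_, ?_⟩
  · by_contra hcon
    push Not at hcon
    obtain ⟨h1, h2⟩ := hcon
    have hy : z = -y := by
      rw [div_eq_one_iff_eq hz] at h1
      exact h1.symm
    have hy' : z' = -y' := by
      rw [div_eq_one_iff_eq hz'] at h2
      exact h2.symm
    obtain ⟨-, h3⟩ := hA
    rw [hy, hy', phi_neg, phi_neg] at h3
    have hy0 : y ≠ 0 := by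
      rintro rfl
      apply hz
      rw [hy, neg_zero]
    have hy0' : y' ≠ 0 := by
      rintro rfl
      apply hz'
      rw [hy', neg_zero]
    apply hP
    apply IsPw.of_sq hp
    have h4 := h3.div (hC.pow (p - 1))
    have e : (p : F) * y ^ (p - 1) * ((p : F) * y' ^ (p - 1)) / g ^ (p - 1) /
        (y * y' / g) ^ (p - 1) = (p : F) ^ 2 := by
      rw [div_pow, mul_pow]
      field_simp
    rwa [e] at h4
  · have h4 := hC.div hB
    have e : y * y' / g / (z * z' / g) = -y / z * (-y' / z') := by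
      field_simp
    rwa [e] at h4
  · have h4 := hA.1.div hB
    have e : (y + z) * (y' + z') / g / (z * z' / g) = (1 - -y / z) * (1 - -y' / z') := by
      field_simp
      ring
    rwa [e] at h4

/-- different variables vanish at the two places: x = 0 and y' = 0 -/
theorem diff {p : ℕ} (hp : Odd p) (hP : ¬ IsPw p (p : F)) {g y z x' z' : F} (hg : g ≠ 0)
    (hy : y ≠ 0) (hz : z ≠ 0) (hx' : x' ≠ 0) (hz' : z' ≠ 0)
    (h : y ^ p + z ^ p = 0) (h' : x' ^ p + z' ^ p = 0)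
    (hA : Dat p g y z 0 z') (hB : Dat p g z 0 z' x') (hC : IsPw p (y * x' / g)) :
    ∃ u v : F, u ^ p = 1 ∧ v ^ p = 1 ∧ (u ≠ 1 ∨ v ≠ 1) ∧
      IsPw p ((1 - u) / (u * v)) ∧ IsPw p ((1 - v) / (u * v)) ∧
      (u = 1 → IsPw p ((p : F) * (1 - v))) ∧ (v = 1 → IsPw p ((p : F) * (1 - u))) := by
  obtain ⟨hA1, hA2⟩ := hA
  obtain ⟨hB1, hB2⟩ := hB
  rw [phi_zero_left hp] at hA2
  rw [phi_comm hp z 0, phi_zero_left hp] at hB2
  rw [zero_add] at hA1
  rw [add_zero] at hB1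
  have hr : z * z' / g ≠ 0 := div_ne_zero (mul_ne_zero hz hz') hg
  -- the cofactor at x when u = 1
  have hu1 : -y / z = 1 → IsPw p ((p : F) * (z * z' / g) ^ (p - 1)) := by
    intro h1
    rw [div_eq_one_iff_eq hz] at h1
    have hy2 : y = -z := by rw [← h1, neg_neg]
    rw [hy2, phi_comm hp, phi_neg] at hA2
    have e : (p : F) * z ^ (p - 1) * z' ^ (p - 1) / g ^ (p - 1) =
        (p : F) * (z * z' / g) ^ (p - 1) := by
      rw [div_pow, mul_pow]
      ring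
    rwa [e] at hA2
  have hv1 : -x' / z' = 1 → IsPw p ((p : F) * (z * z' / g) ^ (p - 1)) := by
    intro h1
    rw [div_eq_one_iff_eq hz'] at h1
    have hx2 : x' = -z' := by rw [← h1, neg_neg]
    rw [hx2, phi_neg] at hB2
    have e : z ^ (p - 1) * ((p : F) * z' ^ (p - 1)) / g ^ (p - 1) =
        (p : F) * (z * z' / g) ^ (p - 1) := by
      rw [div_pow, mul_pow]
      ring
    rwa [e] at hB2
  have eu : (y + z) * z' / g = z * z' / g * (1 - -y / z) := by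
    field_simp
    ring
  have ev : z * (z' + x') / g = z * z' / g * (1 - -x' / z') := by
    field_simp
    ring
  refine ⟨-y / z, -x' / z', root_one hp hz h, root_one hp hz' h', ?_, ?_, ?_, ?_, ?_⟩
  · by_contra hcon
    push Not at hcon
    obtain ⟨h1, h2⟩ := hcon
    apply hP
    have h3 := hu1 h1
    have e1 : y * x' / g = z * z' / g * 1 := by
      rw [div_eq_one_iff_eq hz] at h1
      rw [div_eq_one_iff_eq hz'] at h2
      rw [← h1, ← h2]
      ring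
    rw [e1] at hC
    have h4 := cancel_pow hp hr h3 hC
    rwa [mul_one] at h4
  · have h4 := hA1.div hC
    have e : (y + z) * z' / g / (y * x' / g) = (1 - -y / z) / (-y / z * (-x' / z')) := by
      field_simp
      ring
    rwa [e] at h4
  · have h4 := hB1.div hC
    have e : z * (z' + x') / g / (y * x' / g) = (1 - -x' / z') / (-y / z * (-x' / z')) := by
      field_simp
      ring
    rwa [e] at h4
  · intro h1
    rw [ev] at hB1
    exact cancel_pow hp hr (hu1 h1) hB1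
  · intro h1
    rw [eu] at hA1
    exact cancel_pow hp hr (hv1 h1) hA1

/-- all the data -/
def Full (p : ℕ) (g x y z x' y' z' : F) : Prop :=
  Dat p g y z y' z' ∧ Dat p g z x z' x' ∧ Dat p g x y x' y'

theorem Full.rot {p : ℕ} {g x y z x' y' z' : F} (h : Full p g x y z x' y' z') :
    Full p g y z x y' z' x' := ⟨h.2.1, h.2.2, h.1⟩

theorem Full.flip {p : ℕ} {g x y z x' y' z' : F} (h : Full p g x y z x' y' z') :
    Full p g x' y' z' x y z := ⟨h.1.flip, h.2.1.flip, h.2.2.flip⟩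

theorem eq_zero_of {p : ℕ} (hp : Odd p) {y z : F} (h : y ^ p + z ^ p = 0) (hz : z = 0) :
    y = 0 := by
  rw [hz, zero_pow hp.pos.ne', add_zero] at h
  exact (pow_eq_zero_iff hp.pos.ne').1 h

theorem full_same {p : ℕ} (hp : Odd p) (hP : ¬ IsPw p (p : F)) (hAp : Apart F p)
    {g y z y' z' : F} (hg : g ≠ 0) (h : y ^ p + z ^ p = 0) (h' : y' ^ p + z' ^ p = 0)
    (hn : ¬ (y = 0 ∧ z = 0)) (hn' : ¬ (y' = 0 ∧ z' = 0))
    (hF : Full p g 0 y z 0 y' z') : False := by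
  have hz : z ≠ 0 := fun h0 => hn ⟨eq_zero_of hp h h0, h0⟩
  have hz' : z' ≠ 0 := fun h0 => hn' ⟨eq_zero_of hp h' h0, h0⟩
  obtain ⟨hA, hB, hC⟩ := hF
  have hB1 := hB.1
  have hC1 := hC.1
  rw [add_zero, add_zero] at hB1
  rw [zero_add, zero_add] at hC1
  obtain ⟨u, v, -, -, h1, h2, h3, h4, h5⟩ := same hp hP hg hz hz' h h' hA hB1 hC1
  exact (hAp u v h1 h2 h3).1 ⟨h4, h5⟩

theorem full_diff {p : ℕ} (hp : Odd p) (hP : ¬ IsPw p (p : F)) (hAp : Apart F p)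
    {g y z x' z' : F} (hg : g ≠ 0) (h : y ^ p + z ^ p = 0) (h' : x' ^ p + z' ^ p = 0)
    (hn : ¬ (y = 0 ∧ z = 0)) (hn' : ¬ (x' = 0 ∧ z' = 0))
    (hF : Full p g 0 y z x' 0 z') : False := by
  have hz : z ≠ 0 := fun h0 => hn ⟨eq_zero_of hp h h0, h0⟩
  have hz' : z' ≠ 0 := fun h0 => hn' ⟨eq_zero_of hp h' h0, h0⟩
  have hy : y ≠ 0 := fun h0 => hn ⟨h0, eq_zero_of hp (by rw [add_comm]; exact h) h0⟩
  have hx' : x' ≠ 0 := fun h0 => hn' ⟨h0, eq_zero_of hp (by rw [add_comm]; exact h') h0⟩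
  obtain ⟨hA, hB, hC⟩ := hF
  have hC1 := hC.1
  rw [zero_add, add_zero] at hC1
  obtain ⟨u, v, h1, h2, h3, h4, h5, h6, h7⟩ := diff hp hP hg hy hz hx' hz' h h' hA hB hC1
  exact (hAp u v h1 h2 h3).2 ⟨h4, h5, h6, h7⟩

/-- no local data at a split prime -/
theorem local_split {p : ℕ} (hp : Odd p) (hG : Germ1 F p) (hP : ¬ IsPw p (p : F))
    (hAp : Apart F p) {g x y z x' y' z' : F} (hg : g ≠ 0)
    (h : x ^ p + y ^ p + z ^ p = 0) (h' : x' ^ p + y' ^ p + z' ^ p = 0)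
    (hn : ¬ (x = 0 ∧ y = 0 ∧ z = 0)) (hn' : ¬ (x' = 0 ∧ y' = 0 ∧ z' = 0))
    (hF : Full p g x y z x' y' z') : False := by
  have hp0 : p ≠ 0 := hp.pos.ne'
  rcases hG x y z h with h0 | h0 | h0 <;> rcases hG x' y' z' h' with h0' | h0' | h0' <;>
    subst h0 <;> subst h0'
  · rw [zero_pow hp0, zero_add] at h h'
    exact full_same hp hP hAp hg h h' (fun hh => hn ⟨rfl, hh⟩) (fun hh => hn' ⟨rfl, hh⟩) hF
  · -- x = 0, y' = 0
    rw [zero_pow hp0, zero_add] at h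
    rw [zero_pow hp0, add_zero] at h'
    exact full_diff hp hP hAp hg h h' (fun hh => hn ⟨rfl, hh⟩) (fun hh => hn' ⟨hh.1, rfl, hh.2⟩) hF
  · -- x = 0, z' = 0: flip, (z', x', y') = (0, ..), rotate
    rw [zero_pow hp0, zero_add] at h
    rw [zero_pow hp0, add_zero] at h'
    -- Full p g 0 y z x' y' 0
    have hF2 : Full p g 0 x' y' z 0 y := hF.rot.rot.flip
    exact full_diff hp hP hAp hg h' (by rw [add_comm]; exact h) (fun hh => hn' ⟨hh.1, hh.2, rfl⟩)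
      (fun hh => hn ⟨rfl, hh.2, hh.1⟩) hF2
  · -- y = 0, x' = 0
    rw [zero_pow hp0, add_zero] at h
    rw [zero_pow hp0, zero_add] at h'
    exact full_diff hp hP hAp hg h' h (fun hh => hn' ⟨rfl, hh⟩) (fun hh => hn ⟨hh.1, rfl, hh.2⟩)
      hF.flip
  · -- y = 0, y' = 0
    rw [zero_pow hp0, add_zero] at h h'
    exact full_same hp hP hAp hg (by rw [add_comm]; exact h) (by rw [add_comm]; exact h')
      (fun hh => hn ⟨hh.2, rfl, hh.1⟩) (fun hh => hn' ⟨hh.2, rfl, hh.1⟩) hF.rot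
  · -- y = 0, z' = 0
    rw [zero_pow hp0, add_zero] at h h'
    have hF2 : Full p g 0 z x y' 0 x' := hF.rot
    exact full_diff hp hP hAp hg (by rw [add_comm]; exact h) (by rw [add_comm]; exact h')
      (fun hh => hn ⟨hh.2, rfl, hh.1⟩) (fun hh => hn' ⟨hh.2, hh.1, rfl⟩) hF2
  · -- z = 0, x' = 0
    rw [zero_pow hp0, add_zero] at h
    rw [zero_pow hp0, zero_add] at h'
    have hF2 : Full p g 0 x y z' 0 y' := hF.rot.rot
    exact full_diff hp hP hAp hg h (by rw [add_comm]; exact h') (fun hh => hn ⟨hh.1, hh.2, rfl⟩)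
      (fun hh => hn' ⟨rfl, hh.2, hh.1⟩) hF2
  · -- z = 0, y' = 0
    rw [zero_pow hp0, add_zero] at h h'
    have hF2 : Full p g 0 z' x' y 0 x := hF.rot.flip
    exact full_diff hp hP hAp hg (by rw [add_comm]; exact h') (by rw [add_comm]; exact h)
      (fun hh => hn' ⟨hh.2, rfl, hh.1⟩) (fun hh => hn ⟨hh.2, hh.1, rfl⟩) hF2
  · -- z = 0, z' = 0
    rw [zero_pow hp0, add_zero] at h h'
    exact full_same hp hP hAp hg h h' (fun hh => hn ⟨hh.1, hh.2, rfl⟩)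
      (fun hh => hn' ⟨hh.1, hh.2, rfl⟩) hF.rot.rot

theorem full_ram {p : ℕ} (hp : Odd p) (hG : Germ1 F p) (hP : ¬ IsPw p (p : F))
    {g y z : F} (hg : g ≠ 0) (h : y ^ p + z ^ p = 0) (hn : ¬ (y = 0 ∧ z = 0))
    (hF : Full p g 0 y z 0 y z) : False := by
  have hz : z ≠ 0 := fun h0 => hn ⟨eq_zero_of hp h h0, h0⟩
  obtain ⟨hA, hB, hC⟩ := hF
  have hB1 := hB.1
  have hC1 := hC.1
  rw [add_zero] at hB1
  rw [zero_add] at hC1
  obtain ⟨u, v, hu, hv, h1, -, h3, h4, h5⟩ := same hp hP hg hz hz h h hA hB1 hC1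
  obtain rfl : u = v := by rw [hu, hv]
  have h3 : u ≠ 1 := by tauto
  have h6 : IsPw p u := IsPw.of_sq hp (by rw [sq]; exact h4)
  have h7 : IsPw p (1 - u) := IsPw.of_sq hp (by rw [sq]; exact h5)
  obtain ⟨s, hs⟩ := h6
  obtain ⟨t, ht⟩ := h7
  have h8 : (-1 : F) ^ p + s ^ p + t ^ p = 0 := by
    rw [hs, ht, hp.neg_one_pow]
    ring
  rcases hG _ _ _ h8 with h9 | h9 | h9
  · exact one_ne_zero (neg_eq_zero.1 h9)
  · rw [h9, zero_pow hp.pos.ne'] at hs
    rw [← hs, zero_pow hp.pos.ne'] at h1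
    exact zero_ne_one h1
  · rw [h9, zero_pow hp.pos.ne'] at ht
    exact h3 (sub_eq_zero.1 ht.symm).symm

/-- no local data at a ramified prime -/
theorem local_ram {p : ℕ} (hp : Odd p) (hG : Germ1 F p) (hP : ¬ IsPw p (p : F))
    {g x y z : F} (hg : g ≠ 0)
    (h : x ^ p + y ^ p + z ^ p = 0) (hn : ¬ (x = 0 ∧ y = 0 ∧ z = 0))
    (hF : Full p g x y z x y z) : False := by
  have hp0 : p ≠ 0 := hp.pos.ne'
  rcases hG x y z h with h0 | h0 | h0 <;> subst h0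
  · rw [zero_pow hp0, zero_add] at h
    exact full_ram hp hG hP hg h (fun hh => hn ⟨rfl, hh⟩) hF
  · rw [zero_pow hp0, add_zero] at h
    exact full_ram hp hG hP hg (by rw [add_comm]; exact h) (fun hh => hn ⟨hh.2, rfl, hh.1⟩) hF.rot
  · rw [zero_pow hp0, add_zero] at h
    exact full_ram hp hG hP hg h (fun hh => hn ⟨hh.1, hh.2, rfl⟩) hF.rot.rot

end Pool.Agent.Y546.SG
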