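import Pool.Agent.Y546.SG.Nf
import Pool.Agent.Y546.SG.Loc

/-!
# The first case over quadratic fields
-/

set_option autoImplicit false

namespace Pool.Agent.Y546.SG

open NumberField IsDedekindDomain

variable {K : Type*} [Field K] [NumberField K]

theorem scale1 {x y z : K} (hx : x ≠ 0) (J : Ideal (𝓞 K)) (hJ : J ≠ ⊤) :
    ∃ a : K, ∃ X Y Z : 𝓞 K, algebraMap (𝓞 K) K X = a * x ∧
      algebraMap (𝓞 K) K Y = a * y ∧ algebraMap (𝓞 K) K Z = a * z ∧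
      ¬ (X ∈ J ∧ Y ∈ J ∧ Z ∈ J) := by
  obtain ⟨a, h1, i, -, h2⟩ := Ideal.exist_integer_multiples_notMem (K := K) hJ
    (Finset.univ : Finset (Fin 3)) ![x, y, z] (j := 0) (Finset.mem_univ _) (by simpa using hx)
  obtain ⟨X, hX⟩ := h1 0 (Finset.mem_univ _)
  obtain ⟨Y, hY⟩ := h1 1 (Finset.mem_univ _)
  obtain ⟨Z, hZ⟩ := h1 2 (Finset.mem_univ _)
  refine ⟨a, X, Y, Z, by simpa using hX, by simpa using hY, by simpa using hZ, ?_⟩
  rintro ⟨h3, h4, h5⟩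
  apply h2
  rw [FractionalIdeal.mem_coeIdeal]
  fin_cases i
  · exact ⟨X, h3, hX⟩
  · exact ⟨Y, h4, hY⟩
  · exact ⟨Z, h5, hZ⟩

theorem scale2 {x y z : K} (hx : x ≠ 0) (J J' : Ideal (𝓞 K)) (hJ : J ≠ ⊤) (hJ' : J' ≠ ⊤) :
    ∃ a : K, ∃ X Y Z : 𝓞 K, algebraMap (𝓞 K) K X = a * x ∧
      algebraMap (𝓞 K) K Y = a * y ∧ algebraMap (𝓞 K) K Z = a * z ∧
      ¬ (X ∈ J ∧ Y ∈ J ∧ Z ∈ J) ∧ ¬ (X ∈ J' ∧ Y ∈ J' ∧ Z ∈ J') := by
  obtain ⟨a, X, Y, Z, h1, h2, h3, h4⟩ := scale1 (y := y) (z := z) hx J hJ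
  obtain ⟨a', X', Y', Z', h1', h2', h3', h4'⟩ := scale1 (y := y) (z := z) hx J' hJ'
  by_cases h5 : X ∈ J' ∧ Y ∈ J' ∧ Z ∈ J'
  · by_cases h6 : X' ∈ J ∧ Y' ∈ J ∧ Z' ∈ J
    · refine ⟨a + a', X + X', Y + Y', Z + Z', ?_, ?_, ?_, ?_, ?_⟩
      · rw [map_add, h1, h1']
        ring
      · rw [map_add, h2, h2']
        ring
      · rw [map_add, h3, h3']
        ring
      · rintro ⟨h7, h8, h9⟩
        exact h4 ⟨(Ideal.add_mem_iff_left _ h6.1).1 h7, (Ideal.add_mem_iff_left _ h6.2.1).1 h8,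
          (Ideal.add_mem_iff_left _ h6.2.2).1 h9⟩
      · rintro ⟨h7, h8, h9⟩
        exact h4' ⟨(Ideal.add_mem_iff_right _ h5.1).1 h7, (Ideal.add_mem_iff_right _ h5.2.1).1 h8,
          (Ideal.add_mem_iff_right _ h5.2.2).1 h9⟩
    · exact ⟨a', X', Y', Z', h1', h2', h3', h6, h4'⟩
  · exact ⟨a, X, Y, Z, h1, h2, h3, h4, h5⟩

/-- an element of an ideal avoiding two others -/
theorem avoid (G J J' : Ideal (𝓞 K)) (h : ¬ G ≤ J) (h' : ¬ G ≤ J') :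
    ∃ s ∈ G, s ∉ J ∧ s ∉ J' := by
  obtain ⟨s, hs, hs1⟩ := SetLike.not_le_iff_exists.1 h
  obtain ⟨t, ht, ht1⟩ := SetLike.not_le_iff_exists.1 h'
  by_cases h1 : s ∈ J'
  · by_cases h2 : t ∈ J
    · refine ⟨s + t, add_mem hs ht, ?_, ?_⟩
      · exact fun h3 => hs1 ((Ideal.add_mem_iff_left _ h2).1 h3)
      · exact fun h3 => ht1 ((Ideal.add_mem_iff_right _ h1).1 h3)
    · exact ⟨t, ht, h2, ht1⟩
  · exact ⟨s, hs, hs1, h1⟩

/-- the norm data of one factor -/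
theorem dat_of {p q : ℕ} (hp : Odd p) [Fact q.Prime] (ρ : 𝓞 K →+* ZMod q) (σ : 𝓞 K →+* 𝓞 K)
    (hN : ∀ a : 𝓞 K, ((Algebra.norm ℤ a : ℤ) : 𝓞 K) = a * σ a)
    {X Y Z : 𝓞 K} (hX : X ≠ 0) (h : X ^ p + Y ^ p + Z ^ p = 0) (G : Ideal (𝓞 K))
    (hG : G = Ideal.span {X, Y, Z}) (hg : ((Ideal.absNorm G : ℕ) : ZMod q) ≠ 0)
    (hcase : ∀ P : Ideal (𝓞 K), P.IsPrime → ((p : ℕ) : 𝓞 K) ∈ P → X ∉ P * G) :
    Dat p ((Ideal.absNorm G : ℕ) : ZMod q) (ρ Y) (ρ Z) (ρ (σ Y)) (ρ (σ Z)) := by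
  obtain ⟨⟨a, ha⟩, b, hb⟩ := ideal_pow hp hX h G hG hcase
  obtain ⟨s, hs⟩ := norm_of_ideal hp _ _ _ ha
  obtain ⟨t, ht⟩ := norm_of_ideal hp _ _ _ hb
  have key : ∀ w : 𝓞 K, ρ w * ρ (σ w) = ((Algebra.norm ℤ w : ℤ) : ZMod q) := by
    intro w
    rw [← map_mul, ← hN, map_intCast]
  refine ⟨⟨(s : ZMod q), ?_⟩, ⟨(t : ZMod q), ?_⟩⟩
  · rw [← map_add, ← map_add, ← map_add, key, hs]
    push_cast
    rw [mul_div_cancel_left₀ _ hg]
  · rw [← phi_map, ← phi_map, ← phi_map, key, ht, map_pow]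
    push_cast
    rw [mul_div_cancel_left₀ _ (pow_ne_zero _ hg)]

theorem main (hK : Module.finrank ℚ K = 2) {p q : ℕ} (hp : Odd p) [Fact q.Prime]
    (Q : Ideal (𝓞 K)) (hQ : Ideal.absNorm Q = q) (hG : Germ1 (ZMod q) p)
    (hP : ¬ IsPw p (p : ZMod q)) (hcond : Apart (ZMod q) p ∨ (q : ℤ) ∣ NumberField.discr K)
    {x y z : K} (hx : x ≠ 0) (hy : y ≠ 0) (hz : z ≠ 0) (h : x ^ p + y ^ p + z ^ p = 0)
    (hv : ∀ v : HeightOneSpectrum (𝓞 K), ((p : ℕ) : 𝓞 K) ∈ v.asIdeal →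
      v.valuation K x = v.valuation K y ∧ v.valuation K y = v.valuation K z) : False := by
  obtain ⟨σ, hN, hT⟩ := exists_conj hK
  obtain ⟨ρ⟩ := exists_residue (Fact.out : q.Prime) Q hQ
  obtain ⟨a, X, Y, Z, hXa, hYa, hZa, hn, hn'⟩ := scale2 (y := y) (z := z) hx (RingHom.ker ρ)
    (RingHom.ker (ρ.comp σ)) (RingHom.ker_ne_top _) (RingHom.ker_ne_top _)
  simp only [RingHom.mem_ker, RingHom.comp_apply] at hn hn'
  have ha : a ≠ 0 := by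
    rintro rfl
    rw [zero_mul] at hXa hYa hZa
    have h1 : X = 0 := RingOfIntegers.coe_injective (by rw [map_zero]; exact hXa)
    have h2 : Y = 0 := RingOfIntegers.coe_injective (by rw [map_zero]; exact hYa)
    have h3 : Z = 0 := RingOfIntegers.coe_injective (by rw [map_zero]; exact hZa)
    apply hn
    rw [h1, h2, h3, map_zero]
    exact ⟨rfl, rfl, rfl⟩
  have hX0 : X ≠ 0 := by
    rintro rfl
    rw [map_zero] at hXa
    exact mul_ne_zero ha hx hXa.symm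
  have hY0 : Y ≠ 0 := by
    rintro rfl
    rw [map_zero] at hYa
    exact mul_ne_zero ha hy hYa.symm
  have hZ0 : Z ≠ 0 := by
    rintro rfl
    rw [map_zero] at hZa
    exact mul_ne_zero ha hz hZa.symm
  have hXYZ : X ^ p + Y ^ p + Z ^ p = 0 := by
    apply RingOfIntegers.coe_injective
    rw [map_zero, map_add, map_add, map_pow, map_pow, map_pow]
    have e : a ^ p * (x ^ p + y ^ p + z ^ p) = 0 := by rw [h, mul_zero]
    rw [hXa, hYa, hZa, mul_pow, mul_pow, mul_pow]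
    linear_combination e
  obtain ⟨G, hGd⟩ : ∃ G : Ideal (𝓞 K), G = Ideal.span {X, Y, Z} := ⟨_, rfl⟩
  have hGd2 : G = Ideal.span {Y, Z, X} := by
    rw [hGd]
    congr 1
    ext t
    simp only [Set.mem_insert_iff, Set.mem_singleton_iff]
    tauto
  have hGd3 : G = Ideal.span {Z, X, Y} := by
    rw [hGd]
    congr 1
    ext t
    simp only [Set.mem_insert_iff, Set.mem_singleton_iff]
    tauto
  -- valuations
  have hval : ∀ P : Ideal (𝓞 K), P.IsPrime → ((p : ℕ) : 𝓞 K) ∈ P → ∀ n : ℕ,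
      (X ∈ P ^ n ↔ Y ∈ P ^ n) ∧ (Y ∈ P ^ n ↔ Z ∈ P ^ n) := by
    intro P hPp hPm n
    have hP0 : P ≠ ⊥ := by
      rintro rfl
      rw [Ideal.mem_bot, Nat.cast_eq_zero] at hPm
      exact hp.pos.ne' hPm
    obtain ⟨h1, h2⟩ := hv ⟨P, hPp, hP0⟩ hPm
    have e : ∀ (w : K) (W : 𝓞 K), algebraMap (𝓞 K) K W = a * w →
        (⟨P, hPp, hP0⟩ : HeightOneSpectrum (𝓞 K)).intValuation W =
          (⟨P, hPp, hP0⟩ : HeightOneSpectrum (𝓞 K)).valuation K a *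
            (⟨P, hPp, hP0⟩ : HeightOneSpectrum (𝓞 K)).valuation K w := by
      intro w W hW
      rw [← map_mul, ← hW]
      exact (HeightOneSpectrum.valuation_of_algebraMap _ _).symm
    have hXY : (⟨P, hPp, hP0⟩ : HeightOneSpectrum (𝓞 K)).intValuation X =
        (⟨P, hPp, hP0⟩ : HeightOneSpectrum (𝓞 K)).intValuation Y := by
      rw [e x X hXa, e y Y hYa, h1]
    have hYZ : (⟨P, hPp, hP0⟩ : HeightOneSpectrum (𝓞 K)).intValuation Y =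
        (⟨P, hPp, hP0⟩ : HeightOneSpectrum (𝓞 K)).intValuation Z := by
      rw [e y Y hYa, e z Z hZa, h2]
    have m : ∀ W : 𝓞 K, W ∈ P ^ n ↔
        (⟨P, hPp, hP0⟩ : HeightOneSpectrum (𝓞 K)).intValuation W ≤ WithZero.exp (-(n : ℤ)) :=
      fun W => ((⟨P, hPp, hP0⟩ : HeightOneSpectrum (𝓞 K)).intValuation_le_pow_iff_mem W n).symm
    rw [m X, m Y, m Z, hXY, hYZ]
    exact ⟨Iff.rfl, Iff.rfl⟩
  -- the norm of the common divisor is not divisible by q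
  have hg : ((Ideal.absNorm G : ℕ) : ZMod q) ≠ 0 := by
    have hXG : X ∈ G := by rw [hGd]; exact Ideal.subset_span (by simp)
    have hYG : Y ∈ G := by rw [hGd]; exact Ideal.subset_span (by simp)
    have hZG : Z ∈ G := by rw [hGd]; exact Ideal.subset_span (by simp)
    obtain ⟨s, hs, hs1, hs2⟩ := avoid G (RingHom.ker ρ) (RingHom.ker (ρ.comp σ))
      (fun hle => hn ⟨(RingHom.mem_ker).1 (hle hXG), (RingHom.mem_ker).1 (hle hYG),
        (RingHom.mem_ker).1 (hle hZG)⟩)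
      (fun hle => hn' ⟨(RingHom.mem_ker).1 (hle hXG), (RingHom.mem_ker).1 (hle hYG),
        (RingHom.mem_ker).1 (hle hZG)⟩)
    rw [RingHom.mem_ker] at hs1 hs2
    intro h0
    obtain ⟨I, hI⟩ := Ideal.dvd_span_singleton.2 hs
    obtain ⟨t, ht⟩ := norm_of_ideal (p := 1) odd_one s G I (by rw [pow_one]; exact hI)
    have h1 : ρ s * ρ (σ s) = ((Algebra.norm ℤ s : ℤ) : ZMod q) := by
      rw [← map_mul, ← hN, map_intCast]
    rw [ht] at h1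
    push_cast at h1
    rw [h0, zero_mul] at h1
    rcases mul_eq_zero.1 h1 with h2 | h2
    · exact hs1 h2
    · exact hs2 h2
  have hc1 : ∀ P : Ideal (𝓞 K), P.IsPrime → ((p : ℕ) : 𝓞 K) ∈ P → X ∉ P * G :=
    fun P hPp hPm => case_of_val hX0 G hGd P hPp (hval P hPp hPm)
  have hc2 : ∀ P : Ideal (𝓞 K), P.IsPrime → ((p : ℕ) : 𝓞 K) ∈ P → Y ∉ P * G :=
    fun P hPp hPm => case_of_val hY0 G hGd2 P hPp fun n =>
      ⟨(hval P hPp hPm n).2, (hval P hPp hPm n).2.symm.trans (hval P hPp hPm n).1.symm⟩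
  have hc3 : ∀ P : Ideal (𝓞 K), P.IsPrime → ((p : ℕ) : 𝓞 K) ∈ P → Z ∉ P * G :=
    fun P hPp hPm => case_of_val hZ0 G hGd3 P hPp fun n =>
      ⟨(hval P hPp hPm n).2.symm.trans (hval P hPp hPm n).1.symm, (hval P hPp hPm n).1⟩
  have hF : Full p ((Ideal.absNorm G : ℕ) : ZMod q) (ρ X) (ρ Y) (ρ Z)
      (ρ (σ X)) (ρ (σ Y)) (ρ (σ Z)) :=
    ⟨dat_of hp ρ σ hN hX0 hXYZ G hGd hg hc1,
      dat_of hp ρ σ hN hY0 (by linear_combination hXYZ) G hGd2 hg hc2,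
      dat_of hp ρ σ hN hZ0 (by linear_combination hXYZ) G hGd3 hg hc3⟩
  have hr : ρ X ^ p + ρ Y ^ p + ρ Z ^ p = 0 := by
    rw [← map_pow, ← map_pow, ← map_pow, ← map_add, ← map_add, hXYZ, map_zero]
  have hr' : ρ (σ X) ^ p + ρ (σ Y) ^ p + ρ (σ Z) ^ p = 0 := by
    rw [← map_pow, ← map_pow, ← map_pow, ← map_pow, ← map_pow, ← map_pow, ← map_add, ← map_add,
      ← map_add, ← map_add, hXYZ, map_zero, map_zero]
  rcases hcond with hA | hd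
  · exact local_split hp hG hP hA hg hr hr' hn hn' hF
  · have hconj := residue_conj hK hd ρ σ hT
    rw [hconj X, hconj Y, hconj Z] at hF
    exact local_ram hp hG hP hg hr hn hF

end Pool.Agent.Y546.SG
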