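import Pool.Agent.Y546.SG.Ide

/-!
# Quadratic fields: conjugation, norms, the residue maps at a prime ideal of norm q
-/

set_option autoImplicit false

namespace Pool.Agent.Y546.SG

open NumberField

variable {K : Type*} [Field K] [NumberField K]

/-- conjugation on the integers of a quadratic field -/
theorem exists_conj (hK : Module.finrank ℚ K = 2) :
    ∃ σ : 𝓞 K →+* 𝓞 K, (∀ a : 𝓞 K, ((Algebra.norm ℤ a : ℤ) : 𝓞 K) = a * σ a) ∧
      ∀ a : 𝓞 K, ((Algebra.trace ℤ (𝓞 K) a : ℤ) : 𝓞 K) = a + σ a := by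
  classical
  have : Algebra.IsQuadraticExtension ℚ K := { finrank_eq_two' := hK }
  have : IsGalois ℚ K := inferInstance
  have hcard : Fintype.card Gal(K/ℚ) = 2 := by
    rw [← Nat.card_eq_fintype_card, IsGalois.card_aut_eq_finrank, hK]
  obtain ⟨τ, hτ, huniv⟩ : ∃ τ : Gal(K/ℚ), (1 : Gal(K/ℚ)) ≠ τ ∧
      (Finset.univ : Finset Gal(K/ℚ)) = {1, τ} := by
    obtain ⟨a, b, hab, h⟩ := Finset.card_eq_two.1 hcard
    have h1 : (1 : Gal(K/ℚ)) ∈ ({a, b} : Finset Gal(K/ℚ)) := by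
      have : (1 : Gal(K/ℚ)) ∈ (Finset.univ : Finset Gal(K/ℚ)) := Finset.mem_univ _
      have h' : (Finset.univ : Finset Gal(K/ℚ)) = {a, b} := h
      rwa [h'] at this
    rw [Finset.mem_insert, Finset.mem_singleton] at h1
    rcases h1 with h1 | h1
    · exact ⟨b, by rw [h1]; exact hab, by rw [h1]; exact h⟩
    · refine ⟨a, by rw [h1]; exact hab.symm, ?_⟩
      rw [h1, Finset.pair_comm]
      exact h
  refine ⟨RingOfIntegers.mapRingHom (τ : K →+* K), fun a => ?_, fun a => ?_⟩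
  · apply RingOfIntegers.coe_injective
    have h1 : algebraMap (𝓞 K) K ((Algebra.norm ℤ a : ℤ) : 𝓞 K) =
        algebraMap ℚ K (Algebra.norm ℚ (a : K)) := by
      rw [← Algebra.coe_norm_int]
      simp
    have h2 := Algebra.norm_eq_prod_automorphisms ℚ (a : K)
    rw [huniv, Finset.prod_pair hτ] at h2
    rw [h1, h2]
    simp [RingOfIntegers.mapRingHom_apply]
  · apply RingOfIntegers.coe_injective
    have h1 : algebraMap (𝓞 K) K ((Algebra.trace ℤ (𝓞 K) a : ℤ) : 𝓞 K) =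
        algebraMap ℚ K (Algebra.trace ℚ K (a : K)) := by
      rw [← Algebra.coe_trace_int]
      simp
    have h2 := trace_eq_sum_automorphisms (K := ℚ) (a : K)
    rw [huniv, Finset.sum_pair hτ] at h2
    rw [h1, h2]
    simp [RingOfIntegers.mapRingHom_apply]

/-- the residue map at an ideal of prime norm -/
theorem exists_residue {q : ℕ} (hq : q.Prime) (Q : Ideal (𝓞 K)) (hQ : Ideal.absNorm Q = q) :
    Nonempty (𝓞 K →+* ZMod q) := by
  classical
  have hcard : Nat.card (𝓞 K ⧸ Q) = q := by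
    rw [← hQ]
    rfl
  have : Finite (𝓞 K ⧸ Q) := Nat.finite_of_card_ne_zero (by rw [hcard]; exact hq.ne_zero)
  have := Fintype.ofFinite (𝓞 K ⧸ Q)
  have hcard' : Fintype.card (𝓞 K ⧸ Q) = q := by
    rw [← Nat.card_eq_fintype_card, hcard]
  exact ⟨((ZMod.ringEquivOfPrime (𝓞 K ⧸ Q) hq hcard').symm : (𝓞 K ⧸ Q) →+* ZMod q).comp
    (Ideal.Quotient.mk Q)⟩

/-- norms of elements generating a common factor times a p-th power -/
theorem norm_of_ideal {p : ℕ} (hp : Odd p) (w : 𝓞 K) (I a : Ideal (𝓞 K))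
    (h : Ideal.span {w} = I * a ^ p) :
    ∃ t : ℤ, Algebra.norm ℤ w = (Ideal.absNorm I : ℤ) * t ^ p := by
  have h1 : (Algebra.norm ℤ w).natAbs = Ideal.absNorm I * Ideal.absNorm a ^ p := by
    rw [← Ideal.absNorm_span_singleton, h, map_mul, map_pow]
  rcases Int.natAbs_eq (Algebra.norm ℤ w) with h2 | h2
  · refine ⟨(Ideal.absNorm a : ℤ), ?_⟩
    rw [h2, h1]
    push_cast
    ring
  · refine ⟨-(Ideal.absNorm a : ℤ), ?_⟩
    rw [h2, h1, hp.neg_pow]
    push_cast
    ring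

/-- at a ramified prime the residue map is invariant under conjugation -/
theorem residue_conj (hK : Module.finrank ℚ K = 2) {q : ℕ} [Fact q.Prime]
    (hd : (q : ℤ) ∣ NumberField.discr K) (ρ : 𝓞 K →+* ZMod q) (σ : 𝓞 K →+* 𝓞 K)
    (hT : ∀ a : 𝓞 K, ((Algebra.trace ℤ (𝓞 K) a : ℤ) : 𝓞 K) = a + σ a) (a : 𝓞 K) :
    ρ (σ a) = ρ a := by
  classical
  have hfr : Module.finrank ℤ (𝓞 K) = 2 := by rw [RingOfIntegers.rank, hK]
  let b : Module.Basis (Fin 2) ℤ (𝓞 K) := Module.finBasisOfFinrankEq ℤ (𝓞 K) hfr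
  have h1 : Algebra.discr ℤ ![(1 : 𝓞 K), a] = (b.toMatrix ![(1 : 𝓞 K), a]).det ^ 2 *
      NumberField.discr K := by
    rw [← NumberField.discr_eq_discr K b, ← Algebra.discr_of_matrix_vecMul,
      Module.Basis.toMatrix_map_vecMul]
  have h2 : ((Algebra.discr ℤ ![(1 : 𝓞 K), a] : ℤ) : 𝓞 K) = (a - σ a) ^ 2 := by
    rw [Algebra.discr_def, Matrix.det_fin_two]
    simp only [Algebra.traceMatrix_apply, Algebra.traceForm_apply, Matrix.cons_val_zero,
      Matrix.cons_val_one, one_mul, mul_one]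
    push_cast
    rw [hT, hT, hT, map_one, map_mul]
    ring
  have h3 : ρ ((a - σ a) ^ 2) = 0 := by
    rw [← h2, h1]
    obtain ⟨c, hc⟩ := hd
    rw [hc]
    push_cast
    simp only [map_mul, map_pow, map_intCast, map_natCast, CharP.cast_eq_zero, zero_mul, mul_zero]
  rw [map_pow, map_sub] at h3
  have h4 := pow_eq_zero_iff (two_ne_zero) |>.1 h3
  exact (sub_eq_zero.1 h4).symm

end Pool.Agent.Y546.SG
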