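import Pool.Agent.Y546.SG.Chk

/-!
# The exponents 13, 17, 43, 73, 79, 97
-/

set_option autoImplicit false

namespace Pool.Agent.Y546.SG

instance fact53 : Fact (Nat.Prime 53) := ⟨by norm_num⟩

theorem c13_53 : Germ1 (ZMod 53) 13 ∧ ¬ IsPw 13 ((13 : ℕ) : ZMod 53) ∧ Apart (ZMod 53) 13 :=
  ⟨germ1_of_check (k := 4) (by norm_num) (by norm_num) (by decide +kernel),
    not_pw_of_check (k := 4) (by norm_num) (by norm_num) (by decide +kernel),
    apart_of_check (k := 4) (by norm_num) (by norm_num) (by decide +kernel)⟩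

instance fact131 : Fact (Nat.Prime 131) := ⟨by norm_num⟩

theorem c13_131 : Germ1 (ZMod 131) 13 ∧ ¬ IsPw 13 ((13 : ℕ) : ZMod 131) ∧ Apart (ZMod 131) 13 :=
  ⟨germ1_of_check (k := 10) (by norm_num) (by norm_num) (by decide +kernel),
    not_pw_of_check (k := 10) (by norm_num) (by norm_num) (by decide +kernel),
    apart_of_check (k := 10) (by norm_num) (by norm_num) (by decide +kernel)⟩

instance fact137 : Fact (Nat.Prime 137) := ⟨by norm_num⟩

theorem c17_137 : Germ1 (ZMod 137) 17 ∧ ¬ IsPw 17 ((17 : ℕ) : ZMod 137) ∧ Apart (ZMod 137) 17 :=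
  ⟨germ1_of_check (k := 8) (by norm_num) (by norm_num) (by decide +kernel),
    not_pw_of_check (k := 8) (by norm_num) (by norm_num) (by decide +kernel),
    apart_of_check (k := 8) (by norm_num) (by norm_num) (by decide +kernel)⟩

instance fact431 : Fact (Nat.Prime 431) := ⟨by norm_num⟩

theorem c43_431 : Germ1 (ZMod 431) 43 ∧ ¬ IsPw 43 ((43 : ℕ) : ZMod 431) ∧ Apart (ZMod 431) 43 :=
  ⟨germ1_of_check (k := 10) (by norm_num) (by norm_num) (by decide +kernel),
    not_pw_of_check (k := 10) (by norm_num) (by norm_num) (by decide +kernel),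
    apart_of_check (k := 10) (by norm_num) (by norm_num) (by decide +kernel)⟩

instance fact293 : Fact (Nat.Prime 293) := ⟨by norm_num⟩

theorem c73_293 : Germ1 (ZMod 293) 73 ∧ ¬ IsPw 73 ((73 : ℕ) : ZMod 293) ∧ Apart (ZMod 293) 73 :=
  ⟨germ1_of_check (k := 4) (by norm_num) (by norm_num) (by decide +kernel),
    not_pw_of_check (k := 4) (by norm_num) (by norm_num) (by decide +kernel),
    apart_of_check (k := 4) (by norm_num) (by norm_num) (by decide +kernel)⟩

instance fact317 : Fact (Nat.Prime 317) := ⟨by norm_num⟩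

theorem c79_317 : Germ1 (ZMod 317) 79 ∧ ¬ IsPw 79 ((79 : ℕ) : ZMod 317) ∧ Apart (ZMod 317) 79 :=
  ⟨germ1_of_check (k := 4) (by norm_num) (by norm_num) (by decide +kernel),
    not_pw_of_check (k := 4) (by norm_num) (by norm_num) (by decide +kernel),
    apart_of_check (k := 4) (by norm_num) (by norm_num) (by decide +kernel)⟩

instance fact389 : Fact (Nat.Prime 389) := ⟨by norm_num⟩

theorem c97_389 : Germ1 (ZMod 389) 97 ∧ ¬ IsPw 97 ((97 : ℕ) : ZMod 389) ∧ Apart (ZMod 389) 97 :=
  ⟨germ1_of_check (k := 4) (by norm_num) (by norm_num) (by decide +kernel),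
    not_pw_of_check (k := 4) (by norm_num) (by norm_num) (by decide +kernel),
    apart_of_check (k := 4) (by norm_num) (by norm_num) (by decide +kernel)⟩

end Pool.Agent.Y546.SG
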